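import Pool.Agent.Run7.h962.Net

/-!
# MP_6c24cd_co: the upper half of the nontrivial shortness coefficient

For `r = 7` and every `r ≥ 9` there are infinitely many `r`-regular, `r`-connected,
cyclically `(r+1)`-edge-connected graphs `G` whose circumference is at most
`(1 - 1/(14 r²)) n(G)`; so `a(F_r) ≤ 1 - 1/(14 r²) < 1`.
More generally the same for cyclically `2w`-edge-connected graphs,
`r + 1 ≤ 2 w ≤ (4 r - 4)/3`.
-/

namespace Pool.Agent.Results.MP_6c24cd_co.UpperHalf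

/-- `r`-regular -/
def IsRegular {V : Type} (r : ℕ) (G : SimpleGraph V) : Prop :=
  ∀ v, (G.neighborSet v).ncard = r

/-- `r`-connected: more than `r` vertices, and no set of fewer than `r` vertices disconnects -/
def IsKConnected {V : Type} [Fintype V] (r : ℕ) (G : SimpleGraph V) : Prop :=
  r < Fintype.card V ∧ ∀ R : Finset V, R.card < r → (G.induce {v | v ∉ R}).Connected

/-- cyclically `s`-edge-connected: no set `F` of fewer than `s` edges can be deleted so as to
leave two components that each contain a cycle -/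
def IsCycEdgeConnected {V : Type} (s : ℕ) (G : SimpleGraph V) : Prop :=
  ∀ F : Finset (Sym2 V), F.card < s →
    ∀ C₁ C₂ : (G.deleteEdges (F : Set (Sym2 V))).ConnectedComponent, C₁ ≠ C₂ →
      ¬ ((∃ v ∈ C₁.supp, ∃ p : (G.deleteEdges (F : Set (Sym2 V))).Walk v v, p.IsCycle) ∧
        (∃ v ∈ C₂.supp, ∃ p : (G.deleteEdges (F : Set (Sym2 V))).Walk v v, p.IsCycle))

/-- the circumference: the length of a longest cycle -/
noncomputable def circumference {V : Type} (G : SimpleGraph V) : ℕ :=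
  sSup {l | ∃ (v : V) (p : G.Walk v v), p.IsCycle ∧ p.length = l}

/-- the class `F_r` of the problem -/
def ClassF {V : Type} [Fintype V] (r : ℕ) (G : SimpleGraph V) : Prop :=
  IsRegular r G ∧ IsKConnected r G ∧ IsCycEdgeConnected (r + 1) G

open Run7.h962

lemma mono {V : Type} {s t : ℕ} (h : s ≤ t) (G : SimpleGraph V)
    (hG : IsCycEdgeConnected t G) : IsCycEdgeConnected s G :=
  fun F hF => hG F (lt_of_lt_of_le hF h)

/-- the widths -/
def nn (w : ℕ) : Fin 3 → ℕ := ![w / 2, (w + 1) / 2, (w + 1) / 2]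

theorem main (r w : ℕ) (h1 : r + 1 ≤ 2 * w) (h2 : 3 * w + 2 ≤ 2 * r) (N : ℕ) :
    ∃ (V : Type) (_ : Fintype V) (G : SimpleGraph V), N ≤ Fintype.card V ∧
      IsRegular r G ∧ IsKConnected r G ∧ IsCycEdgeConnected (2 * w) G ∧
      (circumference G : ℝ) ≤
        (1 - (2 * (r : ℝ) - 3 * w - 1) / (14 * (r : ℝ) ^ 2)) * Fintype.card V := by
  classical
  have hr7 : 7 ≤ r := by omega
  have hw4 : 4 ≤ w := by omega
  have n0 : nn w 0 = w / 2 := rfl
  have n1 : nn w 1 = (w + 1) / 2 := rfl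
  have n2 : nn w 2 = (w + 1) / 2 := rfl
  have hn : ∀ x, 2 ≤ nn w x := by
    intro x
    fin_cases x
    · change 2 ≤ nn w 0; rw [n0]; omega
    · change 2 ≤ nn w 1; rw [n1]; omega
    · change 2 ≤ nn w 2; rw [n2]; omega
  have w0 : wd (nn w) 0 = nn w 0 + nn w 2 := rfl
  have w1 : wd (nn w) 1 = nn w 1 + nn w 0 := rfl
  have w2 : wd (nn w) 2 = nn w 2 + nn w 1 := rfl
  have hwd : ∀ x, w ≤ wd (nn w) x ∧ wd (nn w) x ≤ w + 1 := by
    intro x
    fin_cases x
    · change w ≤ wd (nn w) 0 ∧ wd (nn w) 0 ≤ w + 1; rw [w0, n0, n2]; omega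
    · change w ≤ wd (nn w) 1 ∧ wd (nn w) 1 ≤ w + 1; rw [w1, n0, n1]; omega
    · change w ≤ wd (nn w) 2 ∧ wd (nn w) 2 ≤ w + 1; rw [w2, n1, n2]; omega
  have hk : ∀ x, wd (nn w) x ≤ r := fun x => by have := (hwd x).2; omega
  have hsum2 : 2 * (nn w 0 + nn w 1 + nn w 2) ≤ 3 * w + 1 := by
    rw [n0, n1, n2]
    clear * -
    rcases Nat.even_or_odd' w with ⟨m, h | h⟩ <;> omega
  have hsum : nn w 0 + nn w 1 + nn w 2 < r := by omega
  let e := net (N + 1) r
  have htc : TwoConn e := net_twoConn (by omega)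
  have he : ∀ d, (e d).1.2 = d.2 := net_cls
  have hT : Nonempty (ZMod (N + 1) × Fin r) := ⟨(0, ⟨0, by omega⟩)⟩
  refine ⟨Vt (ZMod (N + 1) × Fin r) (ZMod (N + 1)) r (nn w), inferInstance, Gr (nn w) e,
    ?_, ?_, ?_, ?_, ?_⟩
  · rw [card_Vt, Fintype.card_prod, ZMod.card, Fintype.card_fin]
    have : N + 1 ≤ (N + 1) * r * r := by nlinarith [Nat.zero_le ((N + 1) * r)]
    nlinarith
  · intro v
    calc ((Gr (nn w) e).neighborSet v).ncard = (Gr (nn w) e).degree v := by
          rw [Set.ncard_eq_toFinset_card']; rfl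
      _ = r := regular e hk he v
  · exact rconn e hn hk he (fun x => by have := (hwd x).1; omega) (by omega) htc hT
  · exact cycconn e (by omega) (2 * w) hk (fun x => by have := (hwd x).1; omega) (by omega) htc
  · set n := Fintype.card (Vt (ZMod (N + 1) × Fin r) (ZMod (N + 1)) r (nn w)) with hn0
    set K := nn w 0 + nn w 1 + nn w 2 with hK
    have hcyc : ∀ (v : Vt (ZMod (N + 1) × Fin r) (ZMod (N + 1)) r (nn w))
        (p : (Gr (nn w) e).Walk v v), p.IsCycle →
        p.length * (6 * r ^ 2 + 2 * K) + (r - K) * n ≤ (6 * r ^ 2 + 2 * K) * n :=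
      fun v p hp => cyc_short e hk hsum hT p hp
    have hApos : 0 < 6 * r ^ 2 + 2 * K := by nlinarith
    have hcirc : circumference (Gr (nn w) e) * (6 * r ^ 2 + 2 * K) + (r - K) * n ≤
        (6 * r ^ 2 + 2 * K) * n := by
      unfold circumference
      set S := {l | ∃ (v : Vt (ZMod (N + 1) × Fin r) (ZMod (N + 1)) r (nn w))
        (p : (Gr (nn w) e).Walk v v), p.IsCycle ∧ p.length = l} with hS
      by_cases hne : S.Nonempty
      · have hbd : BddAbove S := by
          refine ⟨n, ?_⟩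
          rintro l ⟨v, p, hp, rfl⟩
          have := hcyc v p hp
          by_contra hlt
          push Not at hlt
          have : (6 * r ^ 2 + 2 * K) * n < p.length * (6 * r ^ 2 + 2 * K) := by
            rw [mul_comm]; exact Nat.mul_lt_mul_of_pos_right hlt hApos
          omega
        obtain ⟨v, p, hp, hl⟩ := Nat.sSup_mem hne hbd
        rw [← hl]
        exact hcyc v p hp
      · rw [Set.not_nonempty_iff_eq_empty.1 hne, csSup_empty, Nat.bot_eq_zero, zero_mul,
          zero_add]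
        have : r - K ≤ 6 * r ^ 2 + 2 * K := by
          have : r - K ≤ r := Nat.sub_le _ _
          nlinarith
        exact Nat.mul_le_mul_right n this
    have hKr : K < r := hsum
    have hcast : ((r - K : ℕ) : ℝ) = (r : ℝ) - K := by
      rw [Nat.cast_sub hKr.le]
    have hreal : (circumference (Gr (nn w) e) : ℝ) * (6 * (r : ℝ) ^ 2 + 2 * K) +
        ((r : ℝ) - K) * n ≤ (6 * (r : ℝ) ^ 2 + 2 * K) * n := by
      rw [← hcast]
      exact_mod_cast hcirc
    have hrpos : (0 : ℝ) < r := by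
      have : 0 < r := by omega
      exact_mod_cast this
    have hAposR : (0 : ℝ) < 6 * (r : ℝ) ^ 2 + 2 * K := by positivity
    have hKw : 2 * (K : ℝ) ≤ 3 * w + 1 := by exact_mod_cast hsum2
    have hKr' : (K : ℝ) ≤ r := by exact_mod_cast hKr.le
    have hr7' : (7 : ℝ) ≤ r := by exact_mod_cast hr7
    have hnn : (0 : ℝ) ≤ n := by positivity
    have hfrac : (2 * (r : ℝ) - 3 * w - 1) / (14 * (r : ℝ) ^ 2) ≤
        ((r : ℝ) - K) / (6 * (r : ℝ) ^ 2 + 2 * K) := by
      rw [div_le_div_iff₀ (by positivity) hAposR]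
      have h3 : 2 * (r : ℝ) - 3 * w - 1 ≤ 2 * ((r : ℝ) - K) := by linarith
      have h4 : (0 : ℝ) ≤ (r : ℝ) - K := by linarith
      have h5 : 6 * (r : ℝ) ^ 2 + 2 * K ≤ 7 * (r : ℝ) ^ 2 := by nlinarith
      calc (2 * (r : ℝ) - 3 * w - 1) * (6 * (r : ℝ) ^ 2 + 2 * K)
          ≤ (2 * ((r : ℝ) - K)) * (6 * (r : ℝ) ^ 2 + 2 * K) :=
            mul_le_mul_of_nonneg_right h3 hAposR.le
        _ ≤ (2 * ((r : ℝ) - K)) * (7 * (r : ℝ) ^ 2) :=
            mul_le_mul_of_nonneg_left h5 (by linarith)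
        _ = ((r : ℝ) - K) * (14 * (r : ℝ) ^ 2) := by ring
    have hmain : (circumference (Gr (nn w) e) : ℝ) ≤
        (1 - ((r : ℝ) - K) / (6 * (r : ℝ) ^ 2 + 2 * K)) * n := by
      have : (1 - ((r : ℝ) - K) / (6 * (r : ℝ) ^ 2 + 2 * K)) * n =
          ((6 * (r : ℝ) ^ 2 + 2 * K) * n - ((r : ℝ) - K) * n) / (6 * (r : ℝ) ^ 2 + 2 * K) := by
        field_simp
      rw [this, le_div_iff₀ hAposR]
      linarith
    refine hmain.trans (mul_le_mul_of_nonneg_right ?_ hnn)
    linarith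

/-- Upper half of the nontrivial shortness coefficient: for all `r, w` with `r + 1 ≤ 2 w` and
`3 w + 2 ≤ 2 r` (such a `w` exists exactly for `r = 7` and `r ≥ 9`) there are arbitrarily large
graphs `G` in `F_r`, even cyclically `2w`-edge-connected, with circumference at most
`(1 - (2r - 3w - 1)/(14 r²)) n(G)`; here `2r - 3w - 1 ≥ 1`. -/
theorem result (r w : ℕ) (h1 : r + 1 ≤ 2 * w) (h2 : 3 * w + 2 ≤ 2 * r) (N : ℕ) :
    ∃ (V : Type) (_ : Fintype V) (G : SimpleGraph V), N ≤ Fintype.card V ∧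
      ClassF r G ∧ IsCycEdgeConnected (2 * w) G ∧
      (circumference G : ℝ) ≤
        (1 - (2 * (r : ℝ) - 3 * w - 1) / (14 * (r : ℝ) ^ 2)) * Fintype.card V := by
  obtain ⟨V, hV, G, h3, h4, h5, h6, h7⟩ := main r w h1 h2 N
  exact ⟨V, hV, G, h3, ⟨h4, h5, mono h1 G h6⟩, h6, h7⟩

/-- such a `w` exists for `r = 7` and all `r ≥ 9` -/
theorem exists_w (r : ℕ) (hr : r = 7 ∨ 9 ≤ r) : ∃ w, r + 1 ≤ 2 * w ∧ 3 * w + 2 ≤ 2 * r :=
  ⟨(r + 2) / 2, by omega, by omega⟩

end Pool.Agent.Results.MP_6c24cd_co.UpperHalf
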